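import Pool.Agent.Helper49.M1.Final
import Pool.Agent.Helper66.EAM.Res3

set_option autoImplicit false

/-! M1: the two cases exclude each other. -/

namespace Pool.Agent.Helper49.M1

open MeasureTheory ProbabilityTheory Filter Topology
open Pool.H66.EAM
open scoped ENNReal

variable {μ : Measure ℝ} [IsProbabilityMeasure μ]

theorem pm_pm {σ a b : V → ℝ} (h1 : σ = a ∨ σ = -a) (h2 : σ = b ∨ σ = -b) : a = b ∨ a = -b := by
  rcases h1 with h1 | h1 <;> rcases h2 with h2 | h2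
  · left; rw [← h1, h2]
  · right; rw [← h1, h2]
  · right; rw [← h2, h1, neg_neg]
  · left; rw [h1] at h2; exact neg_injective h2

theorem pm_trans {σ a b : V → ℝ} (h1 : σ = a ∨ σ = -a) (h2 : a = b ∨ a = -b) :
    σ = b ∨ σ = -b := by
  rcases h1 with h1 | h1 <;> rcases h2 with h2 | h2
  · left; rw [h1, h2]
  · right; rw [h1, h2]
  · right; rw [h1, h2]
  · left; rw [h1, h2, neg_neg]

theorem not_both (hμ : ∀ x : ℝ, μ {x} = 0) (h : CaseA μ) {α β : (E → ℝ) → V → ℝ}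
    (hT : TwoPairs μ α β) : False := by
  obtain ⟨αA, hαA, hc, -, -⟩ := h
  obtain ⟨Q, hQ⟩ := exists_stationary μ hμ
  have hfst : Q.map Prod.fst = Measure.infinitePi fun _ : E => μ := hQ.1
  set H : Set (E → ℝ) := {J | αA J = α J ∨ αA J = -α J} with hH
  have hHm : MeasurableSet H :=
    (measurableSet_eq_fun hαA.meas hT.measα).union (measurableSet_eq_fun hαA.meas hT.measα.neg)
  have hQH : Q {p | p.1 ∈ H} = (Measure.infinitePi fun _ : E => μ) H := by
    rw [← hfst, Measure.map_apply measurable_fst hHm]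
    rfl
  have e1 := (hT.half Q hQ H hHm).1
  have e2 : Q {p | p.1 ∈ H ∧ (p.2 = α p.1 ∨ p.2 = -α p.1)} = Q {p | p.1 ∈ H} := by
    refine measure_congr ?_
    filter_upwards [hc Q hQ] with p hp
    refine propext ⟨fun h => h.1, fun h => ⟨h, pm_trans hp h⟩⟩
  rw [e2, hQH] at e1
  have e3 : (Measure.infinitePi fun _ : E => μ) H = 0 := by
    by_contra hne
    exact (ENNReal.half_lt_self hne (measure_ne_top _ _)).ne e1.symm
  have e4 := (hT.half Q hQ Set.univ MeasurableSet.univ).1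
  have e5 : Q {p | p.1 ∈ Set.univ ∧ (p.2 = α p.1 ∨ p.2 = -α p.1)} ≤ Q {p | p.1 ∈ H} := by
    refine measure_mono_ae ?_
    filter_upwards [hc Q hQ] with p hp h
    exact pm_pm hp h.2
  rw [e4, hQH, e3, measure_univ] at e5
  simp at e5

/-- the final form -/
theorem unique_law (hμ : ∀ x : ℝ, μ {x} = 0) (hsym : μ.map (fun x => -x) = μ) :
    (∃! P : Measure ((E → ℝ) × (E → ℝ)), ∃ Q : Measure ((E → ℝ) × (V → ℝ)),
      StationaryLaw μ Q ∧ Q.map (fun p => (p.1, bond p.2)) = P) ∧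
    (CaseA μ ∨ (CaseB μ ∧ ∃ α β : (E → ℝ) → V → ℝ, TwoPairs μ α β)) ∧
    ¬ (CaseA μ ∧ ∃ α β : (E → ℝ) → V → ℝ, TwoPairs μ α β) := by
  obtain ⟨h1, h2⟩ := uniq_law hμ hsym
  refine ⟨h1, ?_, ?_⟩
  · rcases (main3 μ hμ).1 with h | h
    · exact Or.inl h
    · rcases h2 with h3 | h3
      · exact Or.inl h3
      · exact Or.inr ⟨h, h3⟩
  · rintro ⟨h, α, β, h3⟩
    exact not_both hμ h h3

end Pool.Agent.Helper49.M1
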