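import Pool.Agent.Helper49.M1.Main

set_option autoImplicit false

/-! M1, final assembly. -/

namespace Pool.Agent.Helper49.M1

open MeasureTheory ProbabilityTheory Filter Topology Pool.Agent.Helper60.TJ
open Pool.H66.EAM Pool.Agent.Helper66.LK Pool.Agent.Helper98.M1 Pool.Agent.Helper42.M1
open Pool.Agent.Helper61.MM (shB shT PB WT Wgt IsM IsR IsW QQ Df g0 kU One Rs Om)
open scoped symmDiff ENNReal

variable {μ : Measure ℝ} [IsProbabilityMeasure μ]

/-- covariance of the canonical set -/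
theorem Cn_shift {lam : Measure ℝ} {κ : Kernel WT Rs} {R : Measure Om} (hl : Wgt lam)
    (hR : IsR lam κ R) (u : Vx) : ∀ᵐ b ∂(PB lam), Pool.Agent.Helper61.MM.Cn κ (shB u b) =
      sh u '' Pool.Agent.Helper61.MM.Cn κ b := by
  filter_upwards [Pool.Agent.Helper61.MM.kU_shift hl hR u] with b hb
  ext U
  unfold Pool.Agent.Helper61.MM.Cn
  rw [Set.mem_ofPred_eq, hb, Measure.map_apply (measurable_sh u) (measurableSet_singleton U)]
  have h5 : sh u ⁻¹' {U} = {sh (-u) U} := by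
    conv_lhs => rw [← sh_sh_neg u U]
    exact preimage_sh u _
  rw [h5]
  constructor
  · intro h; exact ⟨sh (-u) U, h, sh_sh_neg u U⟩
  · rintro ⟨V, hV, rfl⟩
    rw [sh_neg_sh]
    exact hV

/-- **M1**: for every symmetric law without atoms there is one and only one
translation invariant law of (couplings, pair of ground states), and either there is one covariant
ground state which carries all of them, or there are two pairs, with conditional probabilities one
half. -/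
theorem uniq_law (hμ : ∀ x : ℝ, μ {x} = 0) (hsym : μ.map (fun x => -x) = μ) :
    (∃! P : Measure ((E → ℝ) × (E → ℝ)), ∃ Q : Measure ((E → ℝ) × (V → ℝ)),
      StationaryLaw μ Q ∧ Q.map (fun p => (p.1, bond p.2)) = P) ∧
    (CaseA μ ∨ ∃ α β : (E → ℝ) → V → ℝ, TwoPairs μ α β) := by
  have hl : Wgt (lm μ) := wgt_lm hμ
  obtain ⟨Q1, hQ1⟩ := exists_stationary μ hμ
  -- from the uniqueness among the laws
  have key : (∀ Q Q' : Measure ((E → ℝ) × (V → ℝ)), StationaryLaw μ Q → StationaryLaw μ Q' →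
      Q.map (fun p => (p.1, bond p.2)) = Q'.map (fun p => (p.1, bond p.2))) →
      ∃! P : Measure ((E → ℝ) × (E → ℝ)), ∃ Q : Measure ((E → ℝ) × (V → ℝ)),
      StationaryLaw μ Q ∧ Q.map (fun p => (p.1, bond p.2)) = P := by
    intro h
    refine ⟨_, ⟨Q1, hQ1, rfl⟩, ?_⟩
    rintro P ⟨Q, hQ, rfl⟩
    exact h Q Q1 hQ hQ1
  -- a covariant state
  have left : (∃ F : WT → (Ed → Bool), Measurable F ∧ (∀ᵐ b ∂(PB (lm μ)), F b ∈ GS b.1 b.2) ∧
      ∀ u, ∀ᵐ b ∂(PB (lm μ)), F (shB u b) = sh u (F b)) →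
      (∃! P : Measure ((E → ℝ) × (E → ℝ)), ∃ Q : Measure ((E → ℝ) × (V → ℝ)),
      StationaryLaw μ Q ∧ Q.map (fun p => (p.1, bond p.2)) = P) ∧
      (CaseA μ ∨ ∃ α β : (E → ℝ) → V → ℝ, TwoPairs μ α β) := by
    rintro ⟨F, hF, hg, hs⟩
    have hA : CaseA μ := caseA_of_al hμ hsym hF hg hs
    obtain ⟨P0, hP0⟩ := law_caseA hA
    exact ⟨key fun Q Q' hQ hQ' => (hP0 Q hQ).trans (hP0 Q' hQ').symm, Or.inl hA⟩
  obtain ⟨Q0, hQ0⟩ := Pool.Agent.Helper61.MM.exists_M hl
  obtain ⟨κ, R, hR⟩ := Pool.Agent.Helper5.MM.exists_R hl hQ0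
  have := hR.mark
  have hW := Pool.Agent.Helper5.MM.isW_QQ hl hR
  have h3 := Pool.Agent.Helper61.MM.no3 hl hR hW
  have hC := Pool.Agent.Helper61.MM.two_atoms hl hR h3
  rcases Pool.Agent.Helper61.MM.one_or_two hl hR h3 with h | ⟨h2, hp, hcm, c, hc, hc1, hcnt⟩
  · exact left h
  rcases half_or_cov hl hR h2 (hC.mono fun b hb => hb.2.2.2) with h | ⟨a, a', ha, ha', hab⟩
  · exact left h
  have hone := line_pairs hc hcnt hcm (hC.mono fun b hb => hb.1)
    (Pool.Agent.Helper61.MM.w_one hl hW) (Pool.Agent.Helper61.MM.w_acy hW)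
  have hT : TwoS μ (kU κ) a a' := by
    refine ⟨KP_of (Pool.Agent.Helper61.MM.kU_shift hl hR) (Pool.Agent.Helper61.MM.kU_GS hl hR),
      ha, ha', hab.mono fun b hb => ⟨hb.1, hb.2.2⟩, ?_⟩
    filter_upwards [hone, hab] with b hb hb2
    refine (hb (a b) ?_ (a' b) ?_ hb2.1).1
    · rw [hb2.2.1]; exact Or.inl rfl
    · rw [hb2.2.1]; exact Or.inr rfl
  refine ⟨key fun Q Q' hQ hQ' => uniq hμ hsym hT hQ hQ', Or.inr ⟨_, _, twoPairs hμ hsym hT ?_ ?_⟩⟩
  · intro u
    have h4 := (Pool.Agent.Helper61.MM.mp_shB hl u).quasiMeasurePreserving.ae hab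
    filter_upwards [hab, h4, Cn_shift hl hR u] with b hb hb2 hb3
    rw [← hb2.2.1, hb3, hb.2.1, Set.image_pair]
  · filter_upwards [hone, hab] with b hb hb2
    refine (hb (a b) ?_ (a' b) ?_ hb2.1).2
    · rw [hb2.2.1]; exact Or.inl rfl
    · rw [hb2.2.1]; exact Or.inr rfl

end Pool.Agent.Helper49.M1
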