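import Pool.Agent.Helper61.MM.Canon
import Pool.Agent.Helper5.Replica

set_option autoImplicit false

/-! M1-B: two canonical states: either the heavier one is a covariant choice, or the conditional
probabilities are one half. -/

namespace Pool.Agent.Helper49.M1

open MeasureTheory ProbabilityTheory Filter Topology Pool.Agent.Helper60.TJ Pool.Agent.Helper61.MM
open scoped symmDiff ENNReal

variable {lam : Measure ℝ} {κ : Kernel WT Rs} {R : Measure Om}

theorem measurable_ru : Measurable fun r : Rs => (r ∅).1 :=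
  measurable_fst.comp (measurable_pi_apply _)

instance markov_kU [IsMarkovKernel κ] : IsMarkovKernel (kU κ) :=
  Kernel.IsMarkovKernel.map κ measurable_ru

theorem measurable_sh (u : Vx) : Measurable (sh u : (Ed → Bool) → (Ed → Bool)) :=
  measurable_pi_lambda _ fun _ => measurable_pi_apply _

theorem measurableSet_coord (e : Ed) (b : Bool) : MeasurableSet {U : Ed → Bool | U e = b} := by
  have h : Measurable fun U : Ed → Bool => U e := measurable_pi_apply e
  exact h (measurableSet_singleton b)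

/-- the heavier state -/
noncomputable def hv (κ : Kernel WT Rs) (b : WT) : Ed → Bool :=
  fun e => decide ((2 : ℝ≥0∞)⁻¹ < kU κ b {U | U e = true})

theorem measurable_hv : Measurable (hv κ) := by
  refine measurable_pi_lambda _ fun e => ?_
  refine measurable_to_countable' fun c => ?_
  have h : MeasurableSet {b : WT | (2 : ℝ≥0∞)⁻¹ < kU κ b {U | U e = true}} :=
    measurableSet_lt measurable_const (Kernel.measurable_coe _ (measurableSet_coord e true))
  cases c
  · refine MeasurableSet.congr h.compl ?_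
    ext b
    simp [hv]
  · refine MeasurableSet.congr h ?_
    ext b
    simp [hv]

theorem hv_shift (hl : Wgt lam) (hR : IsR lam κ R) (u : Vx) :
    ∀ᵐ b ∂(PB lam), hv κ (shB u b) = sh u (hv κ b) := by
  filter_upwards [kU_shift hl hR u] with b hb
  funext e
  unfold hv sh
  rw [hb, Measure.map_apply (measurable_sh u) (measurableSet_coord e true)]
  rfl

theorem sh_sh_neg (u : Vx) (V : Ed → Bool) : sh u (sh (-u) V) = V := by
  rw [sh_sh, add_neg_cancel, sh_zero]

theorem sh_neg_sh (u : Vx) (V : Ed → Bool) : sh (-u) (sh u V) = V := by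
  rw [sh_sh, neg_add_cancel, sh_zero]

theorem preimage_sh (u : Vx) (V : Ed → Bool) : sh u ⁻¹' {sh u V} = {V} := by
  ext X
  simp only [Set.mem_preimage, Set.mem_singleton_iff]
  constructor
  · intro h
    rw [← sh_neg_sh u X, h, sh_neg_sh]
  · rintro rfl; rfl

theorem hv_mass (hl : Wgt lam) (hR : IsR lam κ R) (u : Vx) :
    ∀ᵐ b ∂(PB lam), kU κ (shB u b) {hv κ (shB u b)} = kU κ b {hv κ b} := by
  filter_upwards [kU_shift hl hR u, hv_shift hl hR u] with b hb hb2
  rw [hb2, hb, Measure.map_apply (measurable_sh u) (measurableSet_singleton _), preimage_sh]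

/-- an atom of mass more than one half is the heavier state -/
theorem hv_eq [IsMarkovKernel κ] {b : WT} {a : Ed → Bool} (h : (2 : ℝ≥0∞)⁻¹ < kU κ b {a}) :
    hv κ b = a := by
  funext e
  unfold hv
  cases ha : a e
  · rw [decide_eq_false_iff_not, not_lt]
    have h1 : kU κ b {U | U e = true} ≤ kU κ b {a}ᶜ := by
      refine measure_mono fun U hU hUa => ?_
      have hU' : U e = true := hU
      rw [Set.mem_singleton_iff.1 hUa, ha] at hU'
      exact Bool.noConfusion hU'
    refine h1.trans ?_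
    rw [prob_compl_eq_one_sub (measurableSet_singleton a)]
    have h2 : (1 : ℝ≥0∞) - kU κ b {a} ≤ 1 - 2⁻¹ := by gcongr
    rwa [ENNReal.one_sub_inv_two] at h2
  · rw [decide_eq_true_eq]
    refine lt_of_lt_of_le h (measure_mono ?_)
    rintro U hU
    rw [Set.mem_singleton_iff] at hU
    subst hU
    exact ha

/-- two states: covariant choice, or masses one half -/
theorem half_or_cov (hl : Wgt lam) (hR : IsR lam κ R)
    (h2 : ∀ᵐ b ∂(PB lam), (Cn κ b).ncard = 2) (hC : ∀ᵐ b ∂(PB lam), kU κ b (Cn κ b) = 1) :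
    (∃ F : WT → (Ed → Bool), Measurable F ∧ (∀ᵐ b ∂(PB lam), F b ∈ GS b.1 b.2) ∧
      ∀ u, ∀ᵐ b ∂(PB lam), F (shB u b) = sh u (F b)) ∨
    ∃ a a' : WT → (Ed → Bool), Measurable a ∧ Measurable a' ∧ ∀ᵐ b ∂(PB lam), a b ≠ a' b ∧
      Cn κ b = {a b, a' b} ∧ kU κ b {a b} = 2⁻¹ ∧ kU κ b {a' b} = 2⁻¹ := by
  have := hR.mark
  have hm := measurable_mass κ
  have hE : MeasurableSet {b : WT | (2 : ℝ≥0∞)⁻¹ < kU κ b {hv κ b}} :=
    measurableSet_lt measurable_const (hm.comp (measurable_id.prodMk measurable_hv))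
  have hi : ∀ u, ∀ᵐ b ∂(PB lam), shB u b ∈ {b : WT | (2 : ℝ≥0∞)⁻¹ < kU κ b {hv κ b}} ↔
      b ∈ {b : WT | (2 : ℝ≥0∞)⁻¹ < kU κ b {hv κ b}} := by
    intro u
    filter_upwards [hv_mass hl hR u] with b hb
    show (2 : ℝ≥0∞)⁻¹ < kU κ (shB u b) {hv κ (shB u b)} ↔ (2 : ℝ≥0∞)⁻¹ < kU κ b {hv κ b}
    rw [hb]
  rcases zero_one_B hl hE hi with h0 | h1
  · right
    -- the states of positive mass
    have hfin : ∀ᵐ b ∂(PB lam), ∃ a a' : Ed → Bool, a ≠ a' ∧ Cn κ b = {a, a'} := by
      filter_upwards [h2] with b hb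
      exact Set.ncard_eq_two.1 hb
    have hat : ∀ᵐ b ∂(PB lam), ∃ a a' : Ed → Bool, kU κ b ({a, a'}ᶜ) = 0 := by
      filter_upwards [hfin, hC] with b hb hb2
      obtain ⟨a, a', -, hb⟩ := hb
      refine ⟨a, a', ?_⟩
      rw [← hb]
      have hms : MeasurableSet (Cn κ b) := by
        rw [hb]; exact (Set.toFinite _).measurableSet
      rw [prob_compl_eq_zero_iff hms]
      exact hb2
    obtain ⟨a, a', ha, ha', hab⟩ := Pool.Agent.Helper5.Rep.exists_measurable_atoms (kU κ)
      (PB lam) hat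
    refine ⟨a, a', ha, ha', ?_⟩
    have h0' : ∀ᵐ b ∂(PB lam), ¬ (2 : ℝ≥0∞)⁻¹ < kU κ b {hv κ b} := measure_eq_zero_iff_ae_notMem.1 h0
    filter_upwards [hab, h2, h0'] with b hb hb2 hb3
    obtain ⟨hb4, hb5, hb6⟩ := hb
    have hCn : Cn κ b = {a b, a' b} := by
      ext U
      constructor
      · intro hU
        by_contra hn
        exact hU (measure_mono_null (Set.singleton_subset_iff.2 hn) hb4)
      · rintro (h | h)
        · rw [h]; exact hb5
        · rw [Set.mem_singleton_iff.1 h]; exact hb6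
    have hne : a b ≠ a' b := by
      intro h
      rw [hCn, h, Set.pair_eq_singleton, Set.ncard_singleton] at hb2
      omega
    have hle : ∀ U : Ed → Bool, kU κ b {U} ≤ 2⁻¹ := by
      intro U
      by_contra h
      rw [not_le] at h
      apply hb3
      rw [hv_eq h]
      exact h
    have hsum : kU κ b {a b} + kU κ b {a' b} = 1 := by
      rw [← measure_union (by simpa using hne) (measurableSet_singleton _)]
      have h7 : ({a b} : Set (Ed → Bool)) ∪ {a' b} = {a b, a' b} := rfl
      rw [h7, ← prob_compl_eq_zero_iff (Set.toFinite _).measurableSet]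
      exact hb4
    have e1 := hle (a b)
    have e2 := hle (a' b)
    refine ⟨hne, hCn, ?_, ?_⟩
    · refine le_antisymm e1 ?_
      rw [← ENNReal.one_sub_inv_two, ← hsum]
      calc kU κ b {a b} + kU κ b {a' b} - 2⁻¹ ≤ kU κ b {a b} + 2⁻¹ - 2⁻¹ := by gcongr
        _ = kU κ b {a b} := ENNReal.add_sub_cancel_right (by norm_num)
    · refine le_antisymm e2 ?_
      rw [← ENNReal.one_sub_inv_two, ← hsum, add_comm]
      calc kU κ b {a' b} + kU κ b {a b} - 2⁻¹ ≤ kU κ b {a' b} + 2⁻¹ - 2⁻¹ := by gcongr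
        _ = kU κ b {a' b} := ENNReal.add_sub_cancel_right (by norm_num)
  · left
    have h1' : ∀ᵐ b ∂(PB lam), (2 : ℝ≥0∞)⁻¹ < kU κ b {hv κ b} := by
      have := hl.prob
      have h2' : PB lam {b : WT | (2 : ℝ≥0∞)⁻¹ < kU κ b {hv κ b}}ᶜ = 0 := by
        rw [prob_compl_eq_zero_iff hE]; exact h1
      exact h2'
    refine ⟨hv κ, measurable_hv, ?_, hv_shift hl hR⟩
    filter_upwards [h1', kU_GS hl hR] with b hb hb2
    by_contra hn
    have h3 := hb2.2.2
    rw [ae_iff] at h3
    have h4 : kU κ b {hv κ b} = 0 :=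
      measure_mono_null (Set.singleton_subset_iff.2 hn) h3
    rw [h4] at hb
    simp at hb

end Pool.Agent.Helper49.M1
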