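import Pool.Agent.Helper49.M1.UDefs
import Pool.Agent.Helper49.M1.Half
import Pool.Agent.Helper49.MM.ExM
import Pool.Agent.Helper98.M1.Uniq
import Pool.Agent.Helper42.M1.Line
import Pool.Agent.Helper5.MMRepB

set_option autoImplicit false

/-! M1: uniqueness of the translation invariant law of (couplings, ground state pair). -/

namespace Pool.Agent.Helper49.M1

open MeasureTheory ProbabilityTheory Filter Topology Pool.Agent.Helper60.TJ
open Pool.H66.EAM Pool.Agent.Helper66.LK Pool.Agent.Helper98.M1 Pool.Agent.Helper42.M1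
open Pool.Agent.Helper61.MM (shB shT PB WT Wgt IsM IsR IsW QQ Df g0 kU One Rs Om)
open scoped symmDiff ENNReal

variable {μ : Measure ℝ} [IsProbabilityMeasure μ]

theorem bond_neg (σ : V → ℝ) : bond (-σ) = bond σ := by
  funext e
  unfold bond
  simp only [Pi.neg_apply]
  ring

theorem measurable_bnd : Measurable fun σ : V → ℝ => bond σ := by
  refine measurable_pi_iff.2 fun e => ?_
  unfold bond
  exact (measurable_pi_apply _).mul (measurable_pi_apply _)

/-- in case A the law of (couplings, bonds) is determined -/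
theorem law_caseA (h : CaseA μ) : ∃ P0 : Measure ((E → ℝ) × (E → ℝ)),
    ∀ Q : Measure ((E → ℝ) × (V → ℝ)), StationaryLaw μ Q →
      Q.map (fun p => (p.1, bond p.2)) = P0 := by
  obtain ⟨α, hα, hc, -, -⟩ := h
  refine ⟨(Measure.infinitePi fun _ : E => μ).map fun J => (J, bond (α J)), fun Q hQ => ?_⟩
  have h1 : Measurable fun J : E → ℝ => (J, bond (α J)) :=
    measurable_id.prodMk (measurable_bnd.comp hα.meas)
  rw [← hQ.1, Measure.map_map h1 measurable_fst]
  refine Measure.map_congr ?_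
  filter_upwards [hc Q hQ] with p hp
  rcases hp with h2 | h2
  · simp only [Function.comp]; rw [h2]
  · simp only [Function.comp]; rw [h2, bond_neg]

theorem spi_shift {J : E → ℝ} {U : Ed → Bool} (h : Ev J U) (v : V) :
    spi (shJ v J) (sh (vV v) U) = shS v (spi J U) ∨
      spi (shJ v J) (sh (vV v) U) = -shS v (spi J U) := by
  have e1 : bx (ng (tr (shJ v J))) (sh (vV v) U) = sh (vV v) (bx (ng (tr J)) U) := by
    rw [tr_shJ]; rfl
  have e2 : ∀ x : V, vV (x + v) = vV x + vV v := fun x => rfl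
  rcases shift_pot h (vV v) with h1 | h1
  · left
    funext x
    unfold spi shS
    rw [e1, h1]
    simp only
    rw [e2]
  · right
    funext x
    unfold spi
    rw [e1, h1]
    simp only [Pi.neg_apply, shS]
    rw [e2]
    cases pot (bx (ng (tr J)) U) (vV x + vV v) <;> simp [sn]

/-- `σ` is plus or minus the spins of `U` -/
def PM (J : E → ℝ) (U : Ed → Bool) (σ : V → ℝ) : Prop := σ = spi J U ∨ σ = -spi J U

theorem shS_neg (v : V) (σ : V → ℝ) : shS v (-σ) = -shS v σ := rfl

theorem shS_inj {v : V} {σ τ : V → ℝ} (h : shS v σ = shS v τ) : σ = τ := by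
  funext x
  have := congrFun h (x - v)
  unfold shS at this
  rwa [sub_add_cancel] at this

theorem PM_shift {J : E → ℝ} {U : Ed → Bool} (h : Ev J U) (v : V) (σ : V → ℝ) :
    PM (shJ v J) (sh (vV v) U) (shS v σ) ↔ PM J U σ := by
  unfold PM
  rcases spi_shift h v with h1 | h1
  · rw [h1, ← shS_neg]
    exact or_congr ⟨fun h => shS_inj h, fun h => by rw [h]⟩
      ⟨fun h => shS_inj h, fun h => by rw [h]⟩
  · rw [h1, neg_neg, ← shS_neg, or_comm]
    exact or_congr ⟨fun h => shS_inj h, fun h => by rw [h]⟩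
      ⟨fun h => shS_inj h, fun h => by rw [h]⟩

/-- a set with two elements which is mapped to a set with two elements -/
theorem pair_or {X : Type*} {P : X → Prop} {a b c d : X} (h : ({a, b} : Set X) = {c, d}) :
    (P a ∨ P b) ↔ (P c ∨ P d) := by
  have h1 : (∃ x ∈ ({a, b} : Set X), P x) ↔ ∃ x ∈ ({c, d} : Set X), P x := by rw [h]
  simpa using h1

variable {k : Kernel WT (Ed → Bool)} {al be : WT → Ed → Bool}

theorem bnd_ne {J : E → ℝ} {U U' : Ed → Bool} {e : E} : bdU J U e ≠ bdU J U' e ↔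
    U (cE e) ≠ U' (cE e) := not_congr bdU_eq

theorem measurable_spia {al : WT → Ed → Bool} (h : Measurable al) :
    Measurable fun J : E → ℝ => spi J (al (wJ J)) := by
  have h1 : Measurable fun J : E → ℝ => ((J, al (wJ J)) : (E → ℝ) × (Ed → Bool)) :=
    measurable_id.prodMk (h.comp measurable_wJ)
  have h2 := Measurable.comp (g := fun q : (E → ℝ) × (Ed → Bool) => spi q.1 q.2) measurable_spi h1
  exact h2

/-- two states: the structure `TwoPairs` -/
theorem twoPairs (hμ : ∀ x : ℝ, μ {x} = 0) (hsym : μ.map (fun x => -x) = μ)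
    (h : TwoS μ k al be)
    (hcov : ∀ u, ∀ᵐ b ∂(PB (lm μ)),
      ({al (shB u b), be (shB u b)} : Set (Ed → Bool)) = {sh u (al b), sh u (be b)})
    (hline : ∀ᵐ b ∂(PB (lm μ)), IsLine {e : E | al b (cE e) ≠ be b (cE e)}) :
    TwoPairs μ (fun J => spi J (al (wJ J))) (fun J => spi J (be (wJ J))) := by
  have hEv : ∀ᵐ J ∂(Measure.infinitePi fun _ : E => μ), Ev J (al (wJ J)) ∧ Ev J (be (wJ J)) := by
    filter_upwards [ae_wJ hμ hsym h.gs] with J hJ
    exact ⟨Ev_of_GS hJ.1, Ev_of_GS hJ.2⟩
  refine ⟨?_, ?_, ?_, ?_, ?_, ?_⟩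
  · exact measurable_spia h.mal
  · exact measurable_spia h.mbe
  · filter_upwards [ae_wJ hμ hsym h.gs, ae_tr (ae_basic μ hμ)] with J hJ hJ2
    have key : ∀ U, U ∈ GS (wJ J).1 (wJ J).2 → IsGroundState J (spi J U) := by
      intro U hU
      refine ground_of_GS (J' := tr J) (fun e => ?_) hJ2.2 hU
      show J e = J (cE.symm (cE e))
      rw [Equiv.symm_apply_apply]
    exact ⟨key _ hJ.1, key _ hJ.2⟩
  · filter_upwards [ae_wJ hμ hsym hline, hEv] with J hJ hE
    have h1 : {e : E | bond (spi J (al (wJ J))) e ≠ bond (spi J (be (wJ J))) e} =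
        {e : E | al (wJ J) (cE e) ≠ be (wJ J) (cE e)} := by
      ext e
      rw [bond_spi hE.1, bond_spi hE.2]
      exact bnd_ne
    rw [h1]
    exact ⟨hJ.infinite, hJ.deg, hJ.conn⟩
  · intro v
    filter_upwards [ae_wJ hμ hsym (hcov (vV v)), hEv] with J hJ hE σ
    unfold OneOf
    show (PM (shJ v J) (al (wJ (shJ v J))) (shS v σ) ∨ PM (shJ v J) (be (wJ (shJ v J))) (shS v σ)) ↔
      (PM J (al (wJ J)) σ ∨ PM J (be (wJ J)) σ)
    rw [wJ_shJ, pair_or (P := fun U => PM (shJ v J) U (shS v σ)) hJ]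
    exact or_congr (PM_shift hE.1 v σ) (PM_shift hE.2 v σ)
  · intro Q hQ H hH
    obtain ⟨h1, h2⟩ := mass_half hμ hsym h hQ hH
    have hE := ae_fst hQ hEv
    have hsp := two_spin hμ hsym h hQ
    have hne := ae_fst hQ (ae_wJ hμ hsym h.half)
    constructor
    · rw [← h1]
      refine measure_congr ?_
      filter_upwards [hE, stat_spin hQ] with p hp hs
      refine propext ⟨?_, ?_⟩
      · rintro ⟨hpH, h3⟩
        refine ⟨hpH, ?_⟩
        show bond p.2 = bA al p.1
        rcases h3 with h3 | h3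
        · rw [h3]; exact bond_spi hp.1
        · rw [h3, bond_neg]; exact bond_spi hp.1
      · rintro ⟨hpH, h3⟩
        exact ⟨hpH, spin_of_bond hs hp.1 h3⟩
    · rw [← h2]
      refine measure_congr ?_
      filter_upwards [hE, stat_spin hQ, hsp, hne] with p hp hs hsp hn
      refine propext ⟨?_, ?_⟩
      · rintro ⟨hpH, h3⟩
        refine ⟨hpH, fun h4 => hn.1 ?_⟩
        have h4' : bond p.2 = bdU p.1 (al (wJ p.1)) := h4
        have h5 : bond p.2 = bdU p.1 (be (wJ p.1)) := by
          rcases h3 with h3 | h3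
          · rw [h3]; exact bond_spi hp.2
          · rw [h3, bond_neg]; exact bond_spi hp.2
        exact bdU_inj (h4'.symm.trans h5)
      · rintro ⟨hpH, h3⟩
        refine ⟨hpH, hsp.resolve_left fun h4 => h3 ?_⟩
        show bond p.2 = bA al p.1
        rcases h4 with h4 | h4
        · rw [h4]; exact bond_spi hp.1
        · rw [h4, bond_neg]; exact bond_spi hp.1

end Pool.Agent.Helper49.M1
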