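import Pool.Agent.Helper66.EAM.CaseDefs

set_option autoImplicit false

/-! Definitions: one bi-infinite dual path; the case of two pairs of ground states. -/

namespace Pool.H66.EAM

open MeasureTheory

/-- the four edges of the plaquette (unit square) with lower left corner `v` -/
def plaq (v : V) : Set E :=
  {(v, 0), (v, 1), (v + (Pi.single 0 (1 : ℤ) : Fin 2 → ℤ), 1),
    (v + (Pi.single 1 (1 : ℤ) : Fin 2 → ℤ), 0)}

/-- `D` is the set of the edges crossed by one bi-infinite self-avoiding path of the dual lattice:
`D` is infinite, every plaquette has no edge or exactly two edges in `D`, and any two edges of `D`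
are joined by a chain of edges of `D` in which consecutive edges lie on a common plaquette. -/
structure OneLine (D : Set E) : Prop where
  infinite : D.Infinite
  deg : ∀ v : V, (plaq v ∩ D).ncard = 0 ∨ (plaq v ∩ D).ncard = 2
  conn : ∀ e ∈ D, ∀ e' ∈ D,
    Relation.ReflTransGen (fun a b => b ∈ D ∧ ∃ v, a ∈ plaq v ∧ b ∈ plaq v) e e'

/-- `σ` is one of the four configurations `±α(J)`, `±β(J)` -/
def OneOf (α β : (E → ℝ) → V → ℝ) (J : E → ℝ) (σ : V → ℝ) : Prop :=
  (σ = α J ∨ σ = -α J) ∨ σ = β J ∨ σ = -β J

/-- Exactly two pairs of ground states: `±α(J)` and `±β(J)` are ground states of `J`, the set of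
these four configurations is translation covariant, `α(J)` and `β(J)` differ along one bi-infinite
dual path, and under every translation invariant law of (couplings, ground state), given the
couplings, the ground state is `±α(J)` with probability one half and `±β(J)` with probability one
half. -/
structure TwoPairs (μ : Measure ℝ) [IsProbabilityMeasure μ] (α β : (E → ℝ) → V → ℝ) : Prop where
  measα : Measurable α
  measβ : Measurable β
  ground : ∀ᵐ J ∂(Measure.infinitePi fun _ : E => μ), IsGroundState J (α J) ∧
    IsGroundState J (β J)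
  line : ∀ᵐ J ∂(Measure.infinitePi fun _ : E => μ), OneLine {e | bond (α J) e ≠ bond (β J) e}
  cov : ∀ v : V, ∀ᵐ J ∂(Measure.infinitePi fun _ : E => μ), ∀ σ : V → ℝ,
    OneOf α β (shJ v J) (shS v σ) ↔ OneOf α β J σ
  half : ∀ Q : Measure ((E → ℝ) × (V → ℝ)), StationaryLaw μ Q → ∀ H : Set (E → ℝ),
    MeasurableSet H →
      Q {p | p.1 ∈ H ∧ (p.2 = α p.1 ∨ p.2 = -α p.1)} =
        (Measure.infinitePi fun _ : E => μ) H / 2 ∧
      Q {p | p.1 ∈ H ∧ (p.2 = β p.1 ∨ p.2 = -β p.1)} =
        (Measure.infinitePi fun _ : E => μ) H / 2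

end Pool.H66.EAM
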